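import Pool.Agent.Y328.EF2.Sym

/-!
# The vanishing at the edge over the fields below an `S_n`-closure, `n ≥ 8`, for Betti number two

`X` is a smooth projective variety over a number field `K` and `i` an integer such that the `i`-th Betti
number `N` of `X` is at most two: an elliptic curve and `i = 1`, or a rigid Calabi-Yau threefold and
`i = 3`. For every number field `M ⊇ K` the variety `X_M`, seen as a variety over `ℚ`, is smooth and
projective. The theorem is about the order at `s₀ = i/2 + 1` of a meromorphic continuation of
`L(H^i(X_M), s)` for the fields `M` between `K` and the closure `L` of an extension `F/K` of degree at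
least eight with symmetric Galois group. Nothing is assumed about the automorphy of `H^i(X)`.
The definitions are in `Pool.Agent.W353.EF.Defs`.
-/

set_option autoImplicit false

namespace Pool.Agent.Results.MP_2b9663_nt.DegreeEight

open NumberField Pool.Agent.W353.EF

/-- Let `X` be a projective variety of dimension `d` over a number field `K`, `0 ≤ i ≤ 2d`, and let `N`
be its `i`-th Betti number. If `N ≤ 2`, then `SymmetricFields X d i N 8` holds: the orders at
`s₀ = i/2 + 1` over the Young subfields of the closure of any extension `F/K` of degree at least eight
with symmetric Galois group determine the orders over all fields between `K` and the closure. If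
`N ≤ 1`, the same holds without any condition on the degree. -/
theorem result (K : Type) [Field K] [NumberField K] (n d i N : ℕ)
    (X : Set (MvPolynomial (Fin n) (𝓞 K))) (hi : i ≤ 2 * d) :
    (N ≤ 2 → SymmetricFields X d i N 8) ∧ (N ≤ 1 → SymmetricFields X d i N 0) :=
  ⟨fun h => Pool.Agent.Y328.EF2.sym_two N h K n d i X hi,
    fun h => Pool.Agent.Y328.EF2.sym_one N h K n d i X hi⟩

end Pool.Agent.Results.MP_2b9663_nt.DegreeEight
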