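import Pool.Agent.Y853.TZ.Fin

/-!
# A zero at the edge means thin deviations of the Frobenius traces

`X` is a smooth projective variety over a number field `K`, for example over `K = ℚ`, `H = H^i(X)`, of
dimension `N`, and `χ` the trivial or a quadratic character of the absolute Galois group of `K`; `S` is a
finite set of primes containing the primes of bad reduction and the primes where `χ` is ramified.  The
tensor power `H^{⊗ r}` is a part of `H^{ri}(X^r)`; the edge of `L(H^{⊗ r} ⊗ ψ, s)` is the point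
`r i / 2 + 1`.  For `K = ℚ`, `r = 1` and `ψ = 1` it is the point `s₀` of the problem.  Nothing is assumed about
the automorphy of `H`.  The definitions are in `Pool.Agent.Y853.TZ.Defs`, `Pool.Agent.Y139.SM.GDefs`,
`Pool.Agent.W353.AT.Defs`, `Pool.Agent.W353.EH.Defs` and `Pool.Agent.W353.EF.Defs`.
-/

set_option autoImplicit false

namespace Pool.Agent.Results.MP_2b9663_nt.ThinZeros

open NumberField IsDedekindDomain Filter Topology Polynomial
open Pool.Agent.W353.EF (LFun IsFrobenius)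
open Pool.Agent.W353.EH (HasOrder)
open Pool.Agent.W353.AT (IsArtin IsFrobeniusElement)
open Pool.Agent.Y139.SM (IsPowerSystem)
open Pool.Agent.Y853.TZ (twist LPart dev)

/-- **Zeros at the edge and thin deviations.**  Let `m` be an integer and
`dev v = |q_v^{-i/2} tr(F_v | H^i(X)) + m χ(v)|` for the primes `v` outside `S`.

* The following are equivalent.
  1. `L(H ⊗ H, s)` and `L(H ⊗ χ, s)` have meromorphic continuations to neighbourhoods of their edge
     points, the first one of order at least `-m²` (a pole of order at most `m²`), the second one of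
     order `m` (for `m > 0` a zero).
  2. The same with the orders `-m²` and `m`.
  3. `L(H ⊗ H, s + i) L(H ⊗ χ, s + i/2)^{2m} ζ_K(s)^{m²}` continues to a function that is holomorphic
     at the single point `s = 1`.
  4. `∑ dev(v)² q_v^{-θ} < ∞` for some `θ < 1`.
* Let the sum converge for `θ`, and `θ ≥ 1/2`.  For all `r ≥ 0`, all Artin representations `ψ` and some finite
  set `S'` of primes, outside `S'` the Euler products satisfy
  `L(H^{⊗ r} ⊗ ψ, s) = F(s) L(χ^r ⊗ ψ, s - r i/2)^{(-m)^r}` with a function `F` that is holomorphic and has no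
  zeros in the half plane `Re s > r i/2 + (1 + θ)/2`, to the left of the edge.
* Let the sum converge for `θ ≥ 0`.  For every `ε > 0` there are at most `C x^θ` primes `v` outside `S` with
  `q_v ≤ x` and `dev v ≥ ε`.

For example, let `χ = 1`, `m = 1` and let `L(H ⊗ H, s)` have at most a simple pole at the edge (this is
expected if `H` is irreducible).  Then `L(X, s)` has a zero of order one at `s₀` if and only if
`tr(F_v | H^i(X)) = -q_v^{i/2}` up to the deviations of part 4.  -/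
theorem result (K : Type) [Field K] [NumberField K] (l d i N : ℕ)
    (X : Set (MvPolynomial (Fin l) (𝓞 K))) (hi : i ≤ 2 * d)
    (S : Finset (HeightOneSpectrum (𝓞 K))) (α : HeightOneSpectrum (𝓞 K) → Fin N → ℂ)
    (hα : ∀ v ∉ S, IsFrobenius X d i v (α v))
    (χ : Gal(AlgebraicClosure K/K) →* ℤˣ) (c : HeightOneSpectrum (𝓞 K) → ℤˣ)
    (hc : ∀ v ∉ S, ∀ σ, IsFrobeniusElement v σ → χ σ = c v) (m : ℤ)
    (B₁ B₂ : HeightOneSpectrum (𝓞 K) → ℂ[X])
    (hB₁ : IsPowerSystem X d i N 1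
      (twist χ 1 (1 : Representation ℂ Gal(AlgebraicClosure K/K) (Fin 1 → ℂ))) B₁)
    (hB₂ : IsPowerSystem X d i N 2
      (1 : Representation ℂ Gal(AlgebraicClosure K/K) (Fin 1 → ℂ)) B₂) :
    [∃ k : ℤ, -m ^ 2 ≤ k ∧ HasOrder (2 * i) 0 B₂ k ∧ HasOrder (1 * i) 0 B₁ m,
      HasOrder (2 * i) 0 B₂ (-m ^ 2) ∧ HasOrder (1 * i) 0 B₁ m,
      ∃ R : ℂ → ℂ, AnalyticAt ℂ R 1 ∧ ∀ᶠ s in 𝓝 (1 : ℂ), 1 < s.re →
        R s = LFun B₂ (s + i) * LFun B₁ (s + (i : ℂ) / 2) ^ (2 * m) * dedekindZeta K s ^ (m ^ 2),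
      ∃ θ : ℝ, θ < 1 ∧
        Summable fun v => dev S α i c m v ^ 2 * (Ideal.absNorm v.asIdeal : ℝ) ^ (-θ)].TFAE ∧
    ∀ θ : ℝ, (Summable fun v => dev S α i c m v ^ 2 * (Ideal.absNorm v.asIdeal : ℝ) ^ (-θ)) →
      (1 / 2 ≤ θ → ∀ (r n' : ℕ) (ψ : Representation ℂ Gal(AlgebraicClosure K/K) (Fin n' → ℂ))
        (B B' : HeightOneSpectrum (𝓞 K) → ℂ[X]), IsArtin ψ → IsPowerSystem X d i N r ψ B →
        IsPowerSystem X d i N 0 (twist χ r ψ) B' →
        ∃ (S' : Finset (HeightOneSpectrum (𝓞 K))) (F : ℂ → ℂ),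
          DifferentiableOn ℂ F {s : ℂ | r * ((i : ℝ) / 2) + (1 + θ) / 2 < s.re} ∧
          (∀ s, F s ≠ 0) ∧ ∀ s : ℂ, r * ((i : ℝ) / 2) + 1 < s.re →
            LPart S' B s = F s * LPart S' B' (s - r * ((i : ℂ) / 2)) ^ ((-m) ^ r)) ∧
      (0 ≤ θ → ∀ ε : ℝ, 0 < ε → ∃ C : ℝ, ∀ x : ℝ, 0 ≤ x →
        ∀ G : Finset (HeightOneSpectrum (𝓞 K)), (∀ v ∈ G, v ∉ S ∧
          (Ideal.absNorm v.asIdeal : ℝ) ≤ x ∧ ε ≤ dev S α i c m v) → (G.card : ℝ) ≤ C * x ^ θ) := by
  choose σ hσ using Pool.Agent.W540.BE.exists_isFrob (F := K)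
  refine ⟨Pool.Agent.Y853.TZ.tfae hi hσ hα hc m hB₁ hB₂, fun θ hs => ⟨fun hθ r n' ψ B B' hψ hB hB' =>
    Pool.Agent.Y853.TZ.cont hi hσ hα hc hθ hs hψ hB hB', fun hθ ε hε => ?_⟩⟩
  obtain ⟨C, hC⟩ := Pool.Agent.Y853.TZ.count_dev (g := dev S α i c m)
    (q := fun v => (Ideal.absNorm v.asIdeal : ℝ)) (fun v => by
      unfold dev
      split_ifs
      · exact le_rfl
      · exact norm_nonneg _) (fun v => by
      have h : 2 ≤ Ideal.absNorm v.asIdeal := Pool.Agent.W540.BE.two_le_nm v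
      exact_mod_cast (by omega : 0 < Ideal.absNorm v.asIdeal)) hθ hs hε
  exact ⟨C, fun x hx G hG => hC x hx G fun v hv => (hG v hv).2⟩

end Pool.Agent.Results.MP_2b9663_nt.ThinZeros
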