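import Pool.Agent.Y139.SM.Rigid2

/-!
# A zero at the edge and a simple pole of the tensor square determine the orders of all tensor powers

`X` is a smooth projective variety over a number field `K`, for example over `K = ℚ`, `H = H^i(X)`, of
dimension `N`, and `χ` an Artin representation of `K`.  The tensor power `H^{⊗ r}` is a part of
`H^{ri}(X^r)`; the edge of `L(H^{⊗ r} ⊗ χ, s)` is the point `r i / 2 + 1`.  For `K = ℚ`, `r = 1` and `χ = 1` it
is the point `s₀` of the problem.  Nothing is assumed about the automorphy of `H`.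
The definitions are in `Pool.Agent.Y139.SM.GDefs`, `Pool.Agent.W353.AT.Defs`, `Pool.Agent.W353.EH.Defs`
and `Pool.Agent.W353.EF.Defs`.
-/

set_option autoImplicit false

namespace Pool.Agent.Results.MP_2b9663_nt.ZeroRigidity

open NumberField IsDedekindDomain Filter Topology Polynomial
open Pool.Agent.W353.EF (LFun)
open Pool.Agent.W353.EH (edgePoint size HasOrder)
open Pool.Agent.W353.AT (IsArtin)
open Pool.Agent.Y139.SM (IsPowerSystem)

/-- **Rigidity of zeros at the edge.**  Write `x(M)` for `log |L(M, edge + ε)| / log(1/ε)`, a function of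
`ε > 0`; if `L(M, s)` has a meromorphic continuation to a neighbourhood of the edge, then the limit is
minus its order there.  Let `χ` be an irreducible Artin representation of `K`, of dimension `n`.
* (no continuation is assumed)  Let `ψ` and `θ` be Artin representations with
  `tr θ = (tr χ)^r tr ψ`, `n'` the dimension of `ψ`, and `e = 1` or `e = -1`.  For all `δ, η > 0` and all small
  `ε > 0` the number `D = x(H ⊗ H) + 2 e x(H ⊗ χ) + 1` is at least `-η`, and
  `|x(H^{⊗ r} ⊗ ψ) - (-e)^r dim θ^G| ≤ r (N + n)^{r - 1} n' (δ + D / δ) / 2 + η`.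
* Suppose that the order `k₂` of `L(H ⊗ H, s)` at the edge is at least `-1` (at most a simple pole), and
  that the order `k₁` of `L(H ⊗ χ, s)` at the edge is not `0`.  Then `k₁ = ±1`, `k₂ = -1`, and for all `r`, `ψ`
  and `θ` as above `x(H^{⊗ r} ⊗ ψ)` tends to `(-k₁)^r dim θ^G`; the order of `L(H^{⊗ r} ⊗ ψ, s)` at the edge,
  if it exists, is `-(-k₁)^r dim θ^G`.

For example, let `L(H ⊗ H, s)` have at most a simple pole at the edge (this is expected if `H` is
irreducible).  If `L(X, s) = L(H, s)` vanishes at `s₀`, then the zero is simple, `L(H^{⊗ r}, s)` has a simple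
zero at the edge for every odd `r` and a simple pole for every even `r`, and `L(H^{⊗ r} ⊗ ψ, s)` has the order
`0` for all irreducible `ψ ≠ 1`, whenever these orders exist. -/
theorem result (K : Type) [Field K] [NumberField K] (l d i N : ℕ)
    (X : Set (MvPolynomial (Fin l) (𝓞 K))) (hi : i ≤ 2 * d) (n : ℕ)
    (χ : Representation ℂ Gal(AlgebraicClosure K/K) (Fin n → ℂ)) (hχ : IsArtin χ)
    (hirr : χ.IsIrreducible) (B₁ B₂ : HeightOneSpectrum (𝓞 K) → ℂ[X])
    (hB₁ : IsPowerSystem X d i N 1 χ B₁)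
    (hB₂ : IsPowerSystem X d i N 2
      (1 : Representation ℂ Gal(AlgebraicClosure K/K) (Fin 1 → ℂ)) B₂) :
    (∀ (r n' n'' : ℕ) (ψ : Representation ℂ Gal(AlgebraicClosure K/K) (Fin n' → ℂ))
      (θ : Representation ℂ Gal(AlgebraicClosure K/K) (Fin n'' → ℂ))
      (B : HeightOneSpectrum (𝓞 K) → ℂ[X]), IsArtin ψ → IsArtin θ →
      (∀ g, θ.character g = χ.character g ^ r * ψ.character g) → IsPowerSystem X d i N r ψ B →
      (∀ᶠ ε : ℝ in 𝓝[>] 0, LFun B (edgePoint (r * i) 0 + ε) ≠ 0) ∧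
      ∀ e : ℝ, e = 1 ∨ e = -1 → ∀ δ η : ℝ, 0 < δ → 0 < η → ∀ᶠ ε : ℝ in 𝓝[>] 0,
        0 ≤ size (2 * i) 0 B₂ ε + 2 * e * size (1 * i) 0 B₁ ε + 1 + η ∧
        |size (r * i) 0 B ε - (-e) ^ r * Module.finrank ℂ θ.invariants| ≤
          r * ((N : ℝ) + n) ^ (r - 1) * n' *
            ((δ + (size (2 * i) 0 B₂ ε + 2 * e * size (1 * i) 0 B₁ ε + 1) / δ) / 2) + η) ∧
    (∀ k₁ k₂ : ℤ, HasOrder (1 * i) 0 B₁ k₁ → HasOrder (2 * i) 0 B₂ k₂ → -1 ≤ k₂ → k₁ ≠ 0 →
      (k₁ = 1 ∨ k₁ = -1) ∧ k₂ = -1 ∧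
      ∀ (r n' n'' : ℕ) (ψ : Representation ℂ Gal(AlgebraicClosure K/K) (Fin n' → ℂ))
        (θ : Representation ℂ Gal(AlgebraicClosure K/K) (Fin n'' → ℂ))
        (B : HeightOneSpectrum (𝓞 K) → ℂ[X]), IsArtin ψ → IsArtin θ →
        (∀ g, θ.character g = χ.character g ^ r * ψ.character g) → IsPowerSystem X d i N r ψ B →
        Tendsto (size (r * i) 0 B) (𝓝[>] 0)
          (𝓝 ((-k₁ : ℤ) ^ r * Module.finrank ℂ θ.invariants)) ∧
        ∀ k : ℤ, HasOrder (r * i) 0 B k →
          k = -((-k₁) ^ r * (Module.finrank ℂ θ.invariants : ℤ))) := by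
  refine ⟨fun r n' n'' ψ θ B hψ hθ hc hB => ⟨?_, fun e he δ η hδ hη =>
    Pool.Agent.Y139.SM.rigidH hi hχ hirr hB₁ hB₂ he r hψ hθ hc hB hδ hη⟩,
    fun k₁ k₂ h1 h2 hk₂ hk₁ =>
    Pool.Agent.Y139.SM.rigidH_orders hi hχ hirr hB₁ hB₂ h1 h2 hk₂ hk₁⟩
  choose σ hσ using Pool.Agent.W540.BE.exists_isFrob (F := K)
  exact (Pool.Agent.Y139.SM.power_size hi hσ r ψ hψ B hB).1

end Pool.Agent.Results.MP_2b9663_nt.ZeroRigidity
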