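import Pool.Agent.Y770.ZR.Main

/-!
# A zero at one point of the edge recurs along the whole edge

`X` is a smooth projective variety over a number field `K`, for example over `K = ℚ`, and
`H = H^i(X)`.  Nothing is assumed about the automorphy of `H`.  On the edge `Re s = i/2 + 1` of the
half-plane of absolute convergence the Euler product `L_S(H, s)` has boundary values outside a set of
Hausdorff dimension zero.  The theorem says that a zero of a continuation of `L_S(H, s)` at one point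
of the edge, for instance at the point `s₀ = i/2 + 1` of the problem, forces very small boundary values
near points of every long interval of the edge, also for all Dirichlet twists which pretend to be
trivial at the small primes and for all other varieties with the same Euler factors at the small
primes.  So the non-vanishing at all points of the edge follows from a lower bound on arbitrarily long
intervals of the edge.

`IsFrobenius` and `edgePoint`, `angle` are defined in `Pool/Agent/TH958/BV/Defs.lean`.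
-/

set_option autoImplicit false

namespace Pool.Agent.Results.MP_2b9663_nt.ZerosRecur

open NumberField IsDedekindDomain MeasureTheory Filter Topology Pool.Agent.TH958.BV

section
variable {K : Type} [Field K] [NumberField K] {N N' q : ℕ}

open Classical in
/-- The Euler product `L_S(H^i(X) ⊗ χ, s)` over the primes `v ∉ S` of `K`, where `α_{v,j}` are the
eigenvalues of Frobenius on `H^i(X)`. -/
noncomputable def LFun (χ : DirichletCharacter ℂ q) (S : Set (HeightOneSpectrum (𝓞 K)))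
    (α : HeightOneSpectrum (𝓞 K) → Fin N → ℂ) (s : ℂ) : ℂ :=
  ∏' v : HeightOneSpectrum (𝓞 K), if v ∈ S then 1 else
    ∏ j, (1 - χ ((Ideal.absNorm v.asIdeal : ℕ) : ZMod q) * α v j *
      (Ideal.absNorm v.asIdeal : ℂ) ^ (-s))⁻¹

/-- `G(t)` is the boundary value of `L_S(H^i(X) ⊗ χ, s)` at `i/2 + 1 + it`, the limit in all angles,
for all real `t` outside a set of Hausdorff dimension zero. -/
def IsBoundary (χ : DirichletCharacter ℂ q) (i : ℕ) (S : Set (HeightOneSpectrum (𝓞 K)))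
    (α : HeightOneSpectrum (𝓞 K) → Fin N → ℂ) (G : ℝ → ℂ) : Prop :=
  ∃ Z : Set ℝ, dimH Z = 0 ∧ ∀ t : ℝ, t ∉ Z → ∀ C : ℝ,
    Tendsto (LFun χ S α) (𝓝[angle i t C] (edgePoint i t)) (𝓝 (G t))

/-- `L_S(H^i(X), s)` has a meromorphic continuation to a neighbourhood of `i/2 + 1 + iτ` with a zero
at this point. -/
def HasZero (i : ℕ) (S : Set (HeightOneSpectrum (𝓞 K)))
    (α : HeightOneSpectrum (𝓞 K) → Fin N → ℂ) (τ : ℝ) : Prop :=
  ∃ Λ : ℂ → ℂ, MeromorphicAt Λ (edgePoint i τ) ∧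
    (∀ᶠ s in 𝓝 (edgePoint i τ), (i : ℝ) / 2 + 1 < s.re →
      Λ s = LFun (1 : DirichletCharacter ℂ 1) S α s) ∧
    0 < meromorphicOrderAt Λ (edgePoint i τ)

/-- The Euler factors of the two Euler products at all primes of norm at most `x` are equal. -/
def Agree (x : ℕ) (S : Set (HeightOneSpectrum (𝓞 K))) (α : HeightOneSpectrum (𝓞 K) → Fin N → ℂ)
    (S' : Set (HeightOneSpectrum (𝓞 K))) (β : HeightOneSpectrum (𝓞 K) → Fin N' → ℂ) : Prop :=
  ∀ v : HeightOneSpectrum (𝓞 K), Ideal.absNorm v.asIdeal ≤ x → (v ∈ S ↔ v ∈ S') ∧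
    (v ∉ S → Finset.univ.val.map (β v) = Finset.univ.val.map (α v))

end

/-- `|χ(n) n^{-iT} - 1| ≤ δ` for all positive integers `n ≤ x`. -/
def Pretends {q : ℕ} (x : ℕ) (δ : ℝ) (χ : DirichletCharacter ℂ q) (T : ℝ) : Prop :=
  ∀ n : ℕ, 1 ≤ n → n ≤ x → ‖χ (n : ZMod q) * (n : ℂ) ^ (-(T * Complex.I)) - 1‖ ≤ δ

/-- **Zeros on the edge recur.**  Let `X` be a variety over the number field `K`, `S` any set of primes
of `K` and `α_v` the eigenvalues of Frobenius on `H^i(X)` at the primes `v ∉ S`.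

1. Suppose that a continuation of `L_S(H^i(X), s)` has a zero at `i/2 + 1 + iτ`.  For all `M` and
`ε > 0` there are `η ∈ (0, ε]`, `x`, `δ > 0` and `ℓ` such that every real interval of length `ℓ`
contains a `T` with `|n^{-iT} - 1| ≤ δ` for all `n ≤ x`, and such that the following holds for all
varieties `Y` over `K` with `dim H^i(Y) [K : ℚ] ≤ M` and with the same Euler factors at the primes of
norm at most `x` (for instance `Y = X`), and for all `(χ, T)` with `|χ(n) n^{-iT} - 1| ≤ δ` for all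
`n ≤ x` (for instance `χ = 1` and the numbers `T` just mentioned): the boundary values of
`L_{S'}(H^i(Y) ⊗ χ, s)` exist, and at `i/2 + 1 + i (τ + T + u)` their absolute value is at most `ε` for
all `|u| ≤ η` outside a set of measure at most `ε η`.
2. If there is a `c > 0` such that the absolute value of the boundary value of `L_S(H^i(X), s)` is at
least `c` almost everywhere on some interval of the edge of length `ℓ`, for every `ℓ`, then no
continuation of `L_S(H^i(X), s)` has a zero on the edge. -/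
theorem result (K : Type) [Field K] [NumberField K] (n : ℕ) (X : Set (MvPolynomial (Fin n) (𝓞 K)))
    (d i N : ℕ) (S : Set (HeightOneSpectrum (𝓞 K))) (α : HeightOneSpectrum (𝓞 K) → Fin N → ℂ)
    (hα : ∀ v, v ∉ S → IsFrobenius X d i v (α v)) :
    (∀ τ : ℝ, HasZero i S α τ → ∀ (M : ℕ) (ε : ℝ), 0 < ε →
      ∃ (η : ℝ) (x : ℕ) (δ l : ℝ), 0 < η ∧ η ≤ ε ∧ 0 < δ ∧
        (∀ a : ℝ, ∃ T ∈ Set.Icc a (a + l), Pretends x δ (1 : DirichletCharacter ℂ 1) T) ∧
        ∀ (n' : ℕ) (Y : Set (MvPolynomial (Fin n') (𝓞 K))) (d' N' : ℕ)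
          (S' : Set (HeightOneSpectrum (𝓞 K))) (β : HeightOneSpectrum (𝓞 K) → Fin N' → ℂ),
          (∀ v, v ∉ S' → IsFrobenius Y d' i v (β v)) → N' * Module.finrank ℚ K ≤ M →
          Agree x S α S' β →
          ∀ (q : ℕ) (χ : DirichletCharacter ℂ q) (T : ℝ), Pretends x δ χ T →
            (∃ G : ℝ → ℂ, IsBoundary χ i S' β G) ∧
            ∀ G : ℝ → ℂ, IsBoundary χ i S' β G →
              volume {u : ℝ | |u| ≤ η ∧ ε < ‖G (τ + T + u)‖} ≤ ENNReal.ofReal (ε * η)) ∧
    ((∃ G : ℝ → ℂ, IsBoundary (1 : DirichletCharacter ℂ 1) i S α G ∧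
      ∃ c : ℝ, 0 < c ∧ ∀ l : ℝ, ∃ a : ℝ, ∀ᵐ t : ℝ, t ∈ Set.Icc a (a + l) → c ≤ ‖G t‖) →
      ∀ τ : ℝ, ¬ HasZero i S α τ) := by
  have habs : ∀ (n : ℕ) (X : Set (MvPolynomial (Fin n) (𝓞 K))) (d N : ℕ)
      (S : Set (HeightOneSpectrum (𝓞 K))) (α : HeightOneSpectrum (𝓞 K) → Fin N → ℂ),
      (∀ v, v ∉ S → IsFrobenius X d i v (α v)) →
      ∀ v, v ∉ S → ∀ j, ‖α v j‖ = (Pool.Agent.TH339.MP.nm v : ℝ) ^ ((i : ℝ) / 2) := by
    intro n X d N S α h v hv j
    obtain ⟨β, h1, h2, h3⟩ := h v hv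
    refine h2 i (α v j) ?_
    rw [h1]
    exact Multiset.mem_map_of_mem _ (Finset.mem_univ_val j)
  have hα' := habs n X d N S α hα
  have hfirst : ∀ τ : ℝ, HasZero i S α τ → ∀ (M : ℕ) (ε : ℝ), 0 < ε →
      ∃ (η : ℝ) (x : ℕ) (δ l : ℝ), 0 < η ∧ η ≤ ε ∧ 0 < δ ∧
        (∀ a : ℝ, ∃ T ∈ Set.Icc a (a + l), Pretends x δ (1 : DirichletCharacter ℂ 1) T) ∧
        ∀ (n' : ℕ) (Y : Set (MvPolynomial (Fin n') (𝓞 K))) (d' N' : ℕ)
          (S' : Set (HeightOneSpectrum (𝓞 K))) (β : HeightOneSpectrum (𝓞 K) → Fin N' → ℂ),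
          (∀ v, v ∉ S' → IsFrobenius Y d' i v (β v)) → N' * Module.finrank ℚ K ≤ M →
          Agree x S α S' β →
          ∀ (q : ℕ) (χ : DirichletCharacter ℂ q) (T : ℝ), Pretends x δ χ T →
            (∃ G : ℝ → ℂ, IsBoundary χ i S' β G) ∧
            ∀ G : ℝ → ℂ, IsBoundary χ i S' β G →
              volume {u : ℝ | |u| ≤ η ∧ ε < ‖G (τ + T + u)‖} ≤ ENNReal.ofReal (ε * η) := by
    intro τ hz M ε hε
    obtain ⟨η, x, δ, l, h1, h2, h3, h4, h5⟩ :=
      Pool.Agent.Y770.ZR.recur (S := S) (α := α) hα' (τ := τ) hz M hε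
    refine ⟨η, x, δ, l, h1, h2, h3, fun a => ?_, ?_⟩
    · obtain ⟨T, hT, h6⟩ := h4 a
      refine ⟨T, hT, fun m hm hmx => ?_⟩
      have h7 : (1 : DirichletCharacter ℂ 1) (m : ZMod 1) = 1 :=
        MulChar.one_apply (isUnit_of_subsingleton _)
      rw [h7]
      exact h6 m hm hmx
    · intro n' Y d' N' S' β hβ hN' hag q χ T hT
      have hβ' := habs n' Y d' N' S' β hβ
      exact ⟨⟨_, Pool.Agent.Y770.ZR.isBoundary χ hβ'⟩,
        fun G hG => h5 N' S' β hβ' hN' hag q χ T hT G hG⟩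
  refine ⟨hfirst, ?_⟩
  rintro ⟨G, hG, c, hc, h⟩ τ hz
  obtain ⟨η, x, δ, l, h1, h2, h3, h4, h5⟩ := hfirst τ hz (N * Module.finrank ℚ K)
    (min (c / 2) 1) (lt_min (by linarith) one_pos)
  set ε := min (c / 2) 1 with hε
  have hε1 : ε ≤ c / 2 := min_le_left _ _
  have hε2 : ε ≤ 1 := min_le_right _ _
  obtain ⟨a, ha⟩ := h (l + 2 * η)
  obtain ⟨T, hT, h6⟩ := h4 (a + η - τ)
  have hag : Agree x S α S α := fun v _ => ⟨Iff.rfl, fun _ => rfl⟩
  obtain ⟨-, h7⟩ := h5 n X d N S α hα le_rfl hag 1 1 T h6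
  have h8 := h7 G hG
  have h9 : ∀ᵐ u : ℝ, u ∈ Set.Icc (-η) η → u ∈ {u : ℝ | |u| ≤ η ∧ ε < ‖G (τ + T + u)‖} := by
    have h10 : ∀ᵐ u : ℝ, (u + (τ + T)) ∈ Set.Icc a (a + (l + 2 * η)) → c ≤ ‖G (u + (τ + T))‖ :=
      (measurePreserving_add_right volume (τ + T)).quasiMeasurePreserving.ae ha
    filter_upwards [h10] with u hu hu2
    refine ⟨abs_le.2 hu2, ?_⟩
    have h11 := hu ⟨by linarith [hT.1, hu2.1], by linarith [hT.2, hu2.2]⟩
    rw [add_comm] at h11
    linarith
  have h12 : volume (Set.Icc (-η) η) ≤ ENNReal.ofReal (ε * η) := (measure_mono_ae h9).trans h8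
  rw [Real.volume_Icc] at h12
  have h13 := (ENNReal.ofReal_le_ofReal_iff (by positivity)).1 h12
  nlinarith

end Pool.Agent.Results.MP_2b9663_nt.ZerosRecur
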